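import Pool.Agent.J4H71.GC.Loc0
import Pool.Agent.J4H49.GC.Coef

/-!
# Project GC (helper27), job (15) LOC (helper71): local bounds for the coefficients
-/

set_option autoImplicit false

open Finset NumberField

namespace Pool.Agent.J4H71.GC

open Pool.Agent.J4H27.GC

/-- exponents of the `x`-coordinates in a term of the expansion -/
def pp {m : ℕ} (κ : Fin m → Fin 2 → ℕ × Bool) (c : Fin 2 →₀ ℕ) : Ix m → ℕ
  | (none, j) => c j
  | (some i, j) => (κ i j).1

/-- exponents of the `y`-coordinates in a term of the expansion -/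
def qq {m : ℕ} (κ : Fin m → Fin 2 → ℕ × Bool) : Ix m → ℕ
  | (none, j) => ∑ i, if (κ i j).2 then 1 else 0
  | (some i, j) => if (κ i j).2 then 1 else 0

lemma term_eq {m : ℕ} {S : Type} [CommRing S] (x h : Ix m → S) (κ : Fin m → Fin 2 → ℕ × Bool)
    (c : Fin 2 →₀ ℕ) :
    (∏ j, x (none, j) ^ c j) * ∏ i, ∏ j, (x (some i, j) ^ (κ i j).1 *
      if (κ i j).2 then h (some i, j) * h (none, j) else 1) =
    ∏ t, (x t ^ pp κ c t * h t ^ qq κ t) := by
  rw [prod_mul_distrib, prod_Ix, prod_Ix]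
  have e1 : ∏ j, h (none, j) ^ qq κ (none, j) =
      ∏ i, ∏ j, h (none, j) ^ (if (κ i j).2 then 1 else 0) := by
    rw [prod_comm]
    refine prod_congr rfl fun j _ => ?_
    exact (prod_pow_eq_pow_sum _ _ _).symm
  rw [e1]
  have e2 : ∏ i, ∏ j, (x (some i, j) ^ (κ i j).1 *
      if (κ i j).2 then h (some i, j) * h (none, j) else 1) =
      (∏ i, ∏ j, x (some i, j) ^ pp κ c (some i, j)) *
        ((∏ i, ∏ j, h (none, j) ^ (if (κ i j).2 then 1 else 0)) *
        ∏ i, ∏ j, h (some i, j) ^ qq κ (some i, j)) := by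
    rw [← prod_mul_distrib, ← prod_mul_distrib]
    refine prod_congr rfl fun i _ => ?_
    rw [← prod_mul_distrib, ← prod_mul_distrib]
    refine prod_congr rfl fun j _ => ?_
    show _ = x (some i, j) ^ (κ i j).1 * (h (none, j) ^ (if (κ i j).2 then 1 else 0) *
      h (some i, j) ^ (if (κ i j).2 then 1 else 0))
    split_ifs
    · rw [pow_one, pow_one, mul_comm (h (some i, j))]
    · rw [pow_zero, pow_zero, mul_one (1 : S)]
  rw [e2]
  show (∏ j, x (none, j) ^ c j) * _ = ((∏ j, x (none, j) ^ c j) * _) * _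
  ring

section formal

variable {K : Type} [Field K] [NumberField K] {m : ℕ}

/-- the linear series -/
noncomputable def Pt (x h : Ix m → K) (t : Ix m) : PowerSeries K :=
  PowerSeries.C (x t) + PowerSeries.C (4 * h t ^ 2) * PowerSeries.X

/-- the series of `y` -/
noncomputable def Ht (h : Ix m → K) (E : Ix m → PowerSeries K) (t : Ix m) : PowerSeries K :=
  PowerSeries.C (h t) * E t

lemma xR_eq (x h : Ix m → K) (t : Ix m) : xR x h t = (Pt x h t).toMvPowerSeries t := by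
  unfold xR Pt
  rw [map_add (PowerSeries.toMvPowerSeries t), map_mul (PowerSeries.toMvPowerSeries t),
    PowerSeries.toMvPowerSeries_C, PowerSeries.toMvPowerSeries_C, PowerSeries.toMvPowerSeries_X]

lemma hR_eq (h : Ix m → K) (E : Ix m → PowerSeries K) (t : Ix m) :
    hR h E t = (Ht h E t).toMvPowerSeries t := by
  unfold hR Ht
  rw [map_mul (PowerSeries.toMvPowerSeries t), PowerSeries.toMvPowerSeries_C]

lemma onE {a b : Fin 2 → 𝓞 K} {C₁ : ℝ} {x h : Ix m → K} {E : Ix m → PowerSeries K}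
    (hE : ∀ s, IsSer (a s.2) (b s.2) C₁ (x s) (h s) (E s)) :
    OnE a b (gR K m) (xR x h) (hR h E) := by
  intro s
  have h1 : Ht h E s ^ 2 = Pt x h s ^ 3 + PowerSeries.C (a s.2 : K) * Pt x h s +
    PowerSeries.C (b s.2 : K) := (hE s).2.1
  have hg : ∀ c : 𝓞 K, gR K m c = (PowerSeries.C (c : K)).toMvPowerSeries s := by
    intro c
    rw [PowerSeries.toMvPowerSeries_C]
    rfl
  rw [hR_eq, xR_eq, hg, hg, ← map_pow, ← map_pow, ← map_mul, ← map_add, ← map_add, h1]

/-- the coefficient of the value -/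
lemma coeff_Val (hV : S_VAL) (hC : S_COEF) {a b : Fin 2 → 𝓞 K} (D k : Fin m → ℕ) {C₁ : ℝ}
    {x h : Ix m → K} {E : Ix m → PowerSeries K}
    (hE : ∀ s, IsSer (a s.2) (b s.2) C₁ (x s) (h s) (E s))
    (F : NN D → MvPolynomial (Fin 2) (𝓞 K)) (r : Fin m → Fin 2 → Bool) (s : Ix m →₀ ℕ) :
    MvPowerSeries.coeff s (Val a b D k (gR K m) (xR x h) (hR h E) r F) =
      ∑ κ ∈ Kp D, ∑ c ∈ (GG a b D k F r κ).support, (((GG a b D k F r κ).coeff c : 𝓞 K) : K) *
        ∏ t, PowerSeries.coeff (s t) (Pt x h t ^ pp κ c t * Ht h E t ^ qq κ t) := by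
  rw [hV K a b m D k _ (gR K m) (xR x h) (hR h E) (onE hE) r F, map_sum]
  refine sum_congr rfl fun κ _ => ?_
  rw [MvPolynomial.eval₂_eq', sum_mul, map_sum]
  refine sum_congr rfl fun c _ => ?_
  rw [mul_assoc, term_eq]
  have h1 : ∏ t, (xR x h t ^ pp κ c t * hR h E t ^ qq κ t) =
      ∏ t, (Pt x h t ^ pp κ c t * Ht h E t ^ qq κ t).toMvPowerSeries t := by
    refine prod_congr rfl fun t _ => ?_
    rw [map_mul, map_pow, map_pow, ← xR_eq, ← hR_eq]
  rw [h1]
  show MvPowerSeries.coeff s (MvPowerSeries.C _ * _) = _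
  rw [MvPowerSeries.coeff_C_mul, hC]

end formal

section GGfacts

variable {K : Type} [Field K] [NumberField K] {m : ℕ} {a b : Fin 2 → 𝓞 K} {CM : ℝ}

/-- the statement of MMF for fixed data -/
def MM (a b : Fin 2 → 𝓞 K) (C : ℝ) : Prop :=
  ∀ (r : Bool) (j : Fin 2) (k D n : ℕ) (κ : ℕ × Bool), n ≤ D →
    (2 * D < κ.1 → mm a b r j k D n κ = 0) ∧
    (∀ s ∈ (mm a b r j k D n κ).support, ∀ j', s j' ≤ if j' = j then 2 * (4 ^ k * D) else 0) ∧
    len (mm a b r j k D n κ) ≤ C ^ (4 ^ k * D)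

lemma GG_degree (hMM : MM a b CM) (D k : Fin m → ℕ) {d e : ℕ} (hk : ∀ i, D i * 4 ^ k i = d)
    (F : NN D → MvPolynomial (Fin 2) (𝓞 K)) (hF : ∀ n j, (F n).degreeOf j ≤ e)
    (r : Fin m → Fin 2 → Bool) (κ : Fin m → Fin 2 → ℕ × Bool) (j : Fin 2) :
    (GG a b D k F r κ).degreeOf j ≤ e + 2 * m * d := by
  classical
  have hkk : ∀ i, 4 ^ k i * D i = d := fun i => by rw [mul_comm, hk i]
  unfold GG
  refine (MvPolynomial.degreeOf_sum_le _ _ _).trans (Finset.sup_le fun n _ => ?_)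
  refine (MvPolynomial.degreeOf_mul_le _ _ _).trans (Nat.add_le_add (hF n j) ?_)
  refine (MvPolynomial.degreeOf_prod_le _ _ _).trans ?_
  calc ∑ i, MvPolynomial.degreeOf j (∏ j', mm a b (r i j') j' (k i) (D i) (n i j') (κ i j')) ≤
      ∑ _i : Fin m, 2 * d := by
        refine sum_le_sum fun i _ => ?_
        refine (MvPolynomial.degreeOf_prod_le _ _ _).trans ?_
        calc ∑ j', MvPolynomial.degreeOf j (mm a b (r i j') j' (k i) (D i) (n i j') (κ i j')) ≤
            ∑ j' : Fin 2, if j = j' then 2 * d else 0 := by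
              refine sum_le_sum fun j' _ => ?_
              rw [MvPolynomial.degreeOf_le_iff]
              intro s hs
              have := (hMM (r i j') j' (k i) (D i) (n i j') (κ i j') (Fin.is_le _)).2.1 s hs j
              rw [hkk i] at this
              exact this
          _ = 2 * d := by simp
    _ = 2 * m * d := by
        rw [sum_const, card_univ, Fintype.card_fin, smul_eq_mul]
        ring

lemma GG_len (hMM : MM a b CM) (hCM : 1 ≤ CM) (D k : Fin m → ℕ) {d : ℕ}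
    (hk : ∀ i, D i * 4 ^ k i = d)
    (F : NN D → MvPolynomial (Fin 2) (𝓞 K)) {Λ : ℝ} (hΛ : 0 ≤ Λ) (hF : ∀ n, len (F n) ≤ Λ)
    (r : Fin m → Fin 2 → Bool) (κ : Fin m → Fin 2 → ℕ × Bool) :
    len (GG a b D k F r κ) ≤ 4 ^ (m * d) * (Λ * CM ^ (2 * m * d)) := by
  classical
  have hkk : ∀ i, 4 ^ k i * D i = d := fun i => by rw [mul_comm, hk i]
  have hC0 : 0 ≤ CM := by linarith
  unfold GG
  have h1 : ∀ n : NN D, len (F n * ∏ i, ∏ j, mm a b (r i j) j (k i) (D i) (n i j) (κ i j)) ≤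
      Λ * CM ^ (2 * m * d) := by
    intro n
    refine (len_mul _ _).trans (mul_le_mul (hF n) ?_ (len_nonneg _) hΛ)
    refine (len_prod _ _).trans ?_
    calc ∏ i, len (∏ j, mm a b (r i j) j (k i) (D i) (n i j) (κ i j)) ≤
        ∏ _i : Fin m, CM ^ (2 * d) := by
          refine prod_le_prod (fun i _ => len_nonneg _) fun i _ => ?_
          refine (len_prod _ _).trans ?_
          calc ∏ j, len (mm a b (r i j) j (k i) (D i) (n i j) (κ i j)) ≤
              ∏ _j : Fin 2, CM ^ d := by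
                refine prod_le_prod (fun j _ => len_nonneg _) fun j _ => ?_
                have := (hMM (r i j) j (k i) (D i) (n i j) (κ i j) (Fin.is_le _)).2.2
                rwa [hkk i] at this
            _ = CM ^ (2 * d) := by
                rw [prod_const, card_univ, Fintype.card_fin, ← pow_mul, mul_comm]
      _ = CM ^ (2 * m * d) := by
          rw [prod_const, card_univ, Fintype.card_fin, ← pow_mul]
          congr 1
          ring
  refine (len_sum _ _).trans ((sum_le_sum fun n _ => h1 n).trans ?_)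
  rw [sum_const, nsmul_eq_mul]
  refine mul_le_mul_of_nonneg_right ?_ (mul_nonneg hΛ (by positivity))
  have h2 : (Finset.univ : Finset (NN D)).card ≤ 4 ^ (m * d) := by
    have h3 : (Finset.univ : Finset (NN D)).card = ∏ i, (D i + 1) ^ 2 := by
      simp [NN, Fintype.card_pi]
    rw [h3]
    have h4 : ∀ i, D i + 1 ≤ 2 ^ d := by
      intro i
      have h5 : D i ≤ d := by
        calc D i = D i * 1 := (mul_one _).symm
          _ ≤ D i * 4 ^ k i := Nat.mul_le_mul_left _ (Nat.one_le_pow _ _ (by norm_num))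
          _ = d := hk i
      have := Nat.lt_two_pow_self (n := d)
      omega
    calc ∏ i, (D i + 1) ^ 2 ≤ ∏ _i : Fin m, (2 ^ d) ^ 2 :=
          prod_le_prod' fun i _ => Nat.pow_le_pow_left (h4 i) 2
      _ = 4 ^ (m * d) := by
          rw [prod_const, card_univ, Fintype.card_fin, ← pow_mul, ← pow_mul,
            show (4 : ℕ) = 2 ^ 2 by norm_num, ← pow_mul]
          congr 1
          ring
  exact_mod_cast h2

lemma card_Kp (D k : Fin m → ℕ) {d : ℕ} (hD : ∀ i, 1 ≤ D i) (hk : ∀ i, D i * 4 ^ k i = d) :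
    (Kp D).card ≤ 6 ^ (2 * m * d) := by
  classical
  unfold Kp
  rw [Fintype.card_piFinset]
  have h1 : ∀ n : ℕ, 1 ≤ n → (2 * n + 1) * 2 ≤ 6 ^ n := by
    intro n hn
    induction n, hn using Nat.le_induction with
    | base => norm_num
    | succ n hn ih =>
      rw [pow_succ]
      omega
  have h2 : ∀ i, (Fintype.piFinset fun _ : Fin 2 => Finset.range (2 * D i + 1) ×ˢ
      (Finset.univ : Finset Bool)).card ≤ 6 ^ (2 * d) := by
    intro i
    rw [Fintype.card_piFinset]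
    simp only [card_product, card_range, card_univ, Fintype.card_bool, prod_const,
      Fintype.card_fin]
    have h5 : D i ≤ d := by
      calc D i = D i * 1 := (mul_one _).symm
        _ ≤ D i * 4 ^ k i := Nat.mul_le_mul_left _ (Nat.one_le_pow _ _ (by norm_num))
        _ = d := hk i
    calc ((2 * D i + 1) * 2) ^ 2 ≤ (6 ^ d) ^ 2 :=
          Nat.pow_le_pow_left ((h1 _ (hD i)).trans (Nat.pow_le_pow_right (by norm_num) h5)) 2
      _ = 6 ^ (2 * d) := by rw [← pow_mul, mul_comm]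
  calc ∏ i, (Fintype.piFinset fun _ : Fin 2 => Finset.range (2 * D i + 1) ×ˢ
      (Finset.univ : Finset Bool)).card ≤ ∏ _i : Fin m, 6 ^ (2 * d) :=
        prod_le_prod' fun i _ => h2 i
    _ = 6 ^ (2 * m * d) := by
        rw [prod_const, card_univ, Fintype.card_fin, ← pow_mul]
        congr 1
        ring

end GGfacts

lemma inf_le_hs {K : Type} [Field K] [NumberField K] (w : InfinitePlace K) (y : 𝓞 K) :
    w (y : K) ≤ hs y := by
  rw [← InfinitePlace.norm_embedding_eq w]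
  exact norm_embedding_le_house _ _

lemma Bd_nonneg {m : ℕ} (D T : Fin m → ℕ) (d e : ℕ) (M : Ix m → ℝ) (hM : ∀ t, 1 ≤ M t)
    (s : Ix m →₀ ℕ) : 0 ≤ Bd D T d e M s := by
  have hM0 : ∀ t, 0 < M t := fun t => lt_of_lt_of_le one_pos (hM t)
  unfold Bd
  refine mul_nonneg (mul_nonneg (mul_nonneg ?_ ?_) ?_) ?_
  · exact prod_nonneg fun j _ => (pow_pos (hM0 _) _).le
  · exact prod_nonneg fun i _ => prod_nonneg fun j _ => (pow_pos (hM0 _) _).le
  · exact prod_nonneg fun t _ => (pow_pos (hM0 _) _).le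
  · exact prod_nonneg fun i _ => inv_nonneg.2 (pow_pos (lt_min (hM0 _) (hM0 _)) _).le

theorem t_LOC (hMMF : S_MMF) (hV : S_VAL) (hC : S_COEF) : S_LOC := by
  classical
  intro K _ _ a b m C₁ hC₁
  obtain ⟨CM, hCM, hMM'⟩ := hMMF K a b
  have hMM : MM a b CM := hMM'
  obtain ⟨A, hA⟩ : ∃ A : ℝ, A = ∑ w : InfinitePlace K, ∑ j, (w (a j : K) + w (b j : K)) := ⟨_, rfl⟩
  have hAw : ∀ (w : InfinitePlace K) (j : Fin 2), w (a j : K) + w (b j : K) ≤ A := by
    intro w j
    rw [hA]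
    refine le_trans ?_ (single_le_sum (f := fun w : InfinitePlace K =>
      ∑ j, (w (a j : K) + w (b j : K))) (fun w _ => sum_nonneg fun j _ =>
        add_nonneg (apply_nonneg w _) (apply_nonneg w _)) (mem_univ w))
    exact single_le_sum (f := fun j => w (a j : K) + w (b j : K))
      (fun j _ => add_nonneg (apply_nonneg w _) (apply_nonneg w _)) (mem_univ j)
  have hA0 : 0 ≤ A := by
    rw [hA]
    exact sum_nonneg fun w _ => sum_nonneg fun j _ => add_nonneg (apply_nonneg w _) (apply_nonneg w _)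
  obtain ⟨C₃, hC₃⟩ : ∃ C₃ : ℝ, C₃ = 5 * (1 + A) := ⟨_, rfl⟩
  have hC₃1 : 1 ≤ C₃ := by rw [hC₃]; linarith
  refine ⟨6 ^ (2 * m) * 4 ^ m * CM ^ (2 * m) * C₃ ^ (12 * m + 2) * C₁, ?_, ?_⟩
  · have e1 : (1 : ℝ) ≤ 6 ^ (2 * m) := one_le_pow₀ (by norm_num)
    have e2 : (1 : ℝ) ≤ 4 ^ m := one_le_pow₀ (by norm_num)
    have e3 : 1 ≤ CM ^ (2 * m) := one_le_pow₀ hCM
    have e4 : 1 ≤ C₃ ^ (12 * m + 2) := one_le_pow₀ hC₃1
    calc (1 : ℝ) = 1 * 1 * 1 * 1 * 1 := by ring
      _ ≤ _ := by gcongr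
  intro D k T d e hd hD hk he F Λ hF hΛ hT x h E hxh hE r s
  have hDd : ∀ i, D i ≤ d := by
    intro i
    calc D i = D i * 1 := (mul_one _).symm
      _ ≤ D i * 4 ^ k i := Nat.mul_le_mul_left _ (Nat.one_le_pow _ _ (by norm_num))
      _ = d := hk i
  have hΛ0 : 0 ≤ Λ := (len_nonneg (F fun _ _ => 0)).trans (hΛ _)
  -- the combinatorial conditions for the exponents
  have hp0 : ∀ κ, ∀ c ∈ (GG a b D k F r κ).support, ∀ j, pp κ c (none, j) ≤ e + 2 * m * d := by
    intro κ c hc j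
    have h1 := GG_degree hMM D k hk F hF r κ j
    rw [MvPolynomial.degreeOf_le_iff] at h1
    exact h1 c hc
  have hq0 : ∀ (κ : Fin m → Fin 2 → ℕ × Bool) (j : Fin 2), qq κ (none, j) ≤ m := by
    intro κ j
    show ∑ i, (if (κ i j).2 then 1 else 0) ≤ m
    calc ∑ i, (if (κ i j).2 then 1 else 0) ≤ ∑ _i : Fin m, 1 :=
          sum_le_sum fun i _ => by split_ifs <;> omega
      _ = m := by simp
  have hp : ∀ κ ∈ Kp D, ∀ (c : Fin 2 →₀ ℕ) (i : Fin m) (j : Fin 2),
      pp κ c (some i, j) ≤ 2 * D i := by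
    intro κ hκ c i j
    unfold Kp at hκ
    rw [Fintype.mem_piFinset] at hκ
    have h1 := hκ i
    rw [Fintype.mem_piFinset] at h1
    have h2 := h1 j
    rw [mem_product, mem_range] at h2
    have h3 : (κ i j).1 < 2 * D i + 1 := h2.1
    show (κ i j).1 ≤ 2 * D i
    omega
  have hq : ∀ (κ : Fin m → Fin 2 → ℕ × Bool) (i : Fin m) (j : Fin 2), qq κ (some i, j) ≤ 1 := by
    intro κ i j
    show (if (κ i j).2 then 1 else 0) ≤ 1
    split_ifs <;> omega
  have hT' : ∀ κ, ∀ c ∈ (GG a b D k F r κ).support, ∀ i : Fin m,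
      pp κ c (some i, 0) + pp κ c (some i, 1) + T i ≤ 4 * D i := by
    intro κ c hc i
    by_contra hne
    push Not at hne
    have h1 := hT r κ i hne
    rw [h1] at hc
    simp at hc
  rw [coeff_Val hV hC D k hE F r s]
  constructor
  · intro v
    have hM : ∀ t, 1 ≤ max 1 (v (x t)) := fun t => le_max_left _ _
    have hB := Bd_nonneg D T d e (fun t => max 1 (v (x t))) hM s
    refine fin_sum v _ _ hB fun κ hκ => fin_sum v _ _ hB fun c hc => ?_
    rw [map_mul, map_prod]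
    have h1 : ∀ t, v (PowerSeries.coeff (s t) (Pt x h t ^ pp κ c t * Ht h E t ^ qq κ t)) ≤
        (1 * max 1 (v (x t))) ^ pp κ c t * (1 * max 1 (v (x t)) ^ 2) ^ qq κ t *
          (1 * max 1 (v (x t)) ^ 2) ^ s t := by
      intro t
      have hM0 : 0 ≤ max 1 (v (x t)) := zero_le_one.trans (hM t)
      have h2 := NB.mul hM0 (pow_nonneg hM0 _) (pow_nonneg (pow_nonneg hM0 2) _)
        (NB.pow hM0 hM0 (na_P v (hxh t)) (pp κ c t))
        (NB.pow hM0 (pow_nonneg hM0 2) (na_H v (hxh t) ((hE t).2.2.1 v)) (qq κ t)) (s t)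
      rw [one_mul, one_mul, ← pow_mul (max 1 (v (x t))) 2 (s t)]
      exact h2
    have h3 := prod_bd D T d e (fun t => max 1 (v (x t))) hM s (pp κ c) (qq κ) 1 1 le_rfl le_rfl
      (fun t => v (PowerSeries.coeff (s t) (Pt x h t ^ pp κ c t * Ht h E t ^ qq κ t)))
      (fun t => apply_nonneg v _) h1 (hp0 κ c hc) (hq0 κ) (hp κ hκ c) (hq κ) (hT' κ c hc) hDd he hd
    rw [one_pow, one_pow, one_mul, one_mul] at h3
    calc v (((GG a b D k F r κ).coeff c : 𝓞 K) : K) *
        ∏ t, v (PowerSeries.coeff (s t) (Pt x h t ^ pp κ c t * Ht h E t ^ qq κ t)) ≤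
        1 * Bd D T d e (fun t => max 1 (v (x t))) s :=
          mul_le_mul (fin_int v _) h3 (prod_nonneg fun t _ => apply_nonneg v _) zero_le_one
      _ = _ := one_mul _
  · intro w
    have hM : ∀ t, 1 ≤ max 1 (w (x t)) := fun t => le_max_left _ _
    have hB := Bd_nonneg D T d e (fun t => max 1 (w (x t))) hM s
    set B := Bd D T d e (fun t => max 1 (w (x t))) s with hBdef
    have hC₁0 : 0 < C₁ := by linarith
    have hC₃0 : 0 < C₃ := by linarith
    have hterm : ∀ κ ∈ Kp D, ∀ c ∈ (GG a b D k F r κ).support,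
        w ((((GG a b D k F r κ).coeff c : 𝓞 K) : K) *
        ∏ t, PowerSeries.coeff (s t) (Pt x h t ^ pp κ c t * Ht h E t ^ qq κ t)) ≤
        hs ((GG a b D k F r κ).coeff c) * (C₃ ^ ((12 * m + 2) * d) * C₁ ^ (∑ t, s t) * B) := by
      intro κ hκ c hc
      rw [map_mul, map_prod]
      have h1 : ∀ t, w (PowerSeries.coeff (s t) (Pt x h t ^ pp κ c t * Ht h E t ^ qq κ t)) ≤
          (C₃ * max 1 (w (x t))) ^ pp κ c t * (C₃ * max 1 (w (x t)) ^ 2) ^ qq κ t *
            (C₁ * max 1 (w (x t)) ^ 2) ^ s t := by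
        intro t
        have hM0 : 0 < max 1 (w (x t)) := lt_of_lt_of_le one_pos (hM t)
        have hρ : 0 < (C₁ * max 1 (w (x t)) ^ 2)⁻¹ := by positivity
        have h2 := AB.coeff hρ (AB.mul hρ.le
          (AB.pow hρ.le (ar_P w hC₁ (hAw w t.2) (hxh t)) (pp κ c t))
          (AB.pow hρ.le (ar_H w (hAw w t.2) (hxh t) ((hE t).2.2.2 w)) (qq κ t))) (s t)
        rw [inv_inv, ← hC₃] at h2
        exact h2
      have h3 := prod_bd D T d e (fun t => max 1 (w (x t))) hM s (pp κ c) (qq κ) C₃ C₁ hC₃1 hC₁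
        (fun t => w (PowerSeries.coeff (s t) (Pt x h t ^ pp κ c t * Ht h E t ^ qq κ t)))
        (fun t => apply_nonneg w _) h1 (hp0 κ c hc) (hq0 κ) (hp κ hκ c) (hq κ) (hT' κ c hc) hDd he
        hd
      exact mul_le_mul (inf_le_hs w _) h3 (prod_nonneg fun t _ => apply_nonneg w _) (hs_nonneg _)
    have h4 : ∀ κ ∈ Kp D, w (∑ c ∈ (GG a b D k F r κ).support,
        (((GG a b D k F r κ).coeff c : 𝓞 K) : K) *
        ∏ t, PowerSeries.coeff (s t) (Pt x h t ^ pp κ c t * Ht h E t ^ qq κ t)) ≤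
        (4 ^ (m * d) * (Λ * CM ^ (2 * m * d))) *
          (C₃ ^ ((12 * m + 2) * d) * C₁ ^ (∑ t, s t) * B) := by
      intro κ hκ
      refine (inf_sum w _ _).trans ((sum_le_sum fun c hc => hterm κ hκ c hc).trans ?_)
      rw [← sum_mul]
      refine mul_le_mul_of_nonneg_right ?_ (by positivity)
      exact GG_len hMM hCM D k hk F hΛ0 hΛ r κ
    refine (inf_sum w _ _).trans ((sum_le_sum fun κ hκ => h4 κ hκ).trans ?_)
    rw [sum_const, nsmul_eq_mul]
    have h5 : ((Kp D).card : ℝ) ≤ 6 ^ (2 * m * d) := by exact_mod_cast card_Kp D k hD hk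
    have hCM0 : 0 < CM := by linarith
    have h6 : 0 ≤ (4 ^ (m * d) * (Λ * CM ^ (2 * m * d))) *
          (C₃ ^ ((12 * m + 2) * d) * C₁ ^ (∑ t, s t) * B) := by positivity
    refine (mul_le_mul_of_nonneg_right h5 h6).trans ?_
    obtain ⟨G, hG⟩ : ∃ G : ℝ, G = 6 ^ (2 * m) * 4 ^ m * CM ^ (2 * m) * C₃ ^ (12 * m + 2) :=
      ⟨_, rfl⟩
    rw [← hG]
    have hG1 : 1 ≤ G := by
      rw [hG]
      have e1 : (1 : ℝ) ≤ 6 ^ (2 * m) := one_le_pow₀ (by norm_num)
      have e2 : (1 : ℝ) ≤ 4 ^ m := one_le_pow₀ (by norm_num)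
      have e3 : 1 ≤ CM ^ (2 * m) := one_le_pow₀ hCM
      have e4 : 1 ≤ C₃ ^ (12 * m + 2) := one_le_pow₀ hC₃1
      calc (1 : ℝ) = 1 * 1 * 1 * 1 := by ring
        _ ≤ _ := by gcongr
    have h7 : G ^ d * C₁ ^ (∑ t, s t) ≤ (G * C₁) ^ (d + ∑ t, s t) := by
      rw [pow_add]
      have e1 : G ^ d ≤ (G * C₁) ^ d :=
        pow_le_pow_left₀ (by linarith) (le_mul_of_one_le_right (by linarith) hC₁) d
      have e2 : C₁ ^ (∑ t, s t) ≤ (G * C₁) ^ (∑ t, s t) :=
        pow_le_pow_left₀ (by linarith) (le_mul_of_one_le_left (by linarith) hG1) _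
      exact mul_le_mul e1 e2 (by positivity) (by positivity)
    calc (6 : ℝ) ^ (2 * m * d) * ((4 ^ (m * d) * (Λ * CM ^ (2 * m * d))) *
          (C₃ ^ ((12 * m + 2) * d) * C₁ ^ (∑ t, s t) * B)) =
        (G ^ d * C₁ ^ (∑ t, s t)) * (Λ * B) := by
          rw [hG, mul_pow, mul_pow, mul_pow, ← pow_mul, ← pow_mul, ← pow_mul, ← pow_mul]
          ring
      _ ≤ (G * C₁) ^ (d + ∑ t, s t) * (Λ * B) :=
          mul_le_mul_of_nonneg_right h7 (by positivity)
      _ = _ := by ring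

end Pool.Agent.J4H71.GC
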