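import Pool.Agent.J4H27.GC.Defs3

/-!
# Project GC (helper27), job (15) LOC (helper71): one-variable bounds and products
-/

set_option autoImplicit false

open Finset NumberField

namespace Pool.Agent.J4H71.GC

open Pool.Agent.J4H27.GC

section na

variable {K : Type} [Field K] [NumberField K]

lemma fin_sum (v : FinitePlace K) {ι : Type*} (s : Finset ι) (f : ι → K) {B : ℝ} (hB : 0 ≤ B)
    (h : ∀ i ∈ s, v (f i) ≤ B) : v (∑ i ∈ s, f i) ≤ B := by
  classical
  induction s using Finset.induction_on with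
  | empty =>
    rw [sum_empty, map_zero]
    exact hB
  | insert a s ha ih =>
    rw [sum_insert ha]
    exact (FinitePlace.add_le v _ _).trans
      (max_le (h a (mem_insert_self _ _)) (ih fun i hi => h i (mem_insert_of_mem hi)))

lemma fin_int (v : FinitePlace K) (y : 𝓞 K) : v (y : K) ≤ 1 := by
  rw [← FinitePlace.norm_embedding_eq]
  exact FinitePlace.norm_le_one _ _ y

lemma fin_nat (v : FinitePlace K) (m : ℕ) : v (m : K) ≤ 1 := by
  have := fin_int v (m : 𝓞 K)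
  simpa using this

/-- nonarchimedean bound for the coefficients -/
def NB (v : FinitePlace K) (M A : ℝ) (f : PowerSeries K) : Prop :=
  ∀ n, v (PowerSeries.coeff n f) ≤ A * M ^ (2 * n)

lemma NB.mul {v : FinitePlace K} {M A A' : ℝ} {f g : PowerSeries K} (hM : 0 ≤ M) (hA : 0 ≤ A)
    (hA' : 0 ≤ A') (hf : NB v M A f) (hg : NB v M A' g) : NB v M (A * A') (f * g) := by
  intro n
  rw [PowerSeries.coeff_mul]
  refine fin_sum v _ _ (by positivity) fun i hi => ?_
  rw [Finset.HasAntidiagonal.mem_antidiagonal] at hi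
  rw [map_mul]
  calc v (PowerSeries.coeff i.1 f) * v (PowerSeries.coeff i.2 g) ≤
      (A * M ^ (2 * i.1)) * (A' * M ^ (2 * i.2)) :=
        mul_le_mul (hf _) (hg _) (apply_nonneg v _) (by positivity)
    _ = A * A' * M ^ (2 * n) := by
        rw [← hi, mul_add, pow_add]
        ring

lemma NB.one {v : FinitePlace K} {M : ℝ} (hM : 0 ≤ M) : NB v M 1 1 := by
  intro n
  rw [PowerSeries.coeff_one]
  split_ifs with h
  · rw [h, map_one]
    simp
  · rw [map_zero]
    positivity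

lemma NB.pow {v : FinitePlace K} {M A : ℝ} {f : PowerSeries K} (hM : 0 ≤ M) (hA : 0 ≤ A)
    (hf : NB v M A f) (n : ℕ) : NB v M (A ^ n) (f ^ n) := by
  induction n with
  | zero =>
    rw [pow_zero, pow_zero]
    exact NB.one hM
  | succ n ih =>
    rw [pow_succ, pow_succ]
    exact NB.mul hM (by positivity) hA ih hf

lemma coeff_lin (x c : K) (n : ℕ) :
    PowerSeries.coeff n (PowerSeries.C x + PowerSeries.C c * PowerSeries.X) =
      if n = 0 then x else if n = 1 then c else 0 := by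
  rw [map_add, PowerSeries.coeff_C_mul, PowerSeries.coeff_X, PowerSeries.coeff_C]
  rcases Nat.eq_zero_or_pos n with h | h
  · subst h; simp
  · have hn : n ≠ 0 := by omega
    simp [hn]

lemma na_h (v : FinitePlace K) {a b : 𝓞 K} {x h : K} (hc : h ^ 2 = x ^ 3 + (a : K) * x + (b : K)) :
    v h ^ 2 ≤ (max 1 (v x)) ^ 3 := by
  have hM1 : 1 ≤ max 1 (v x) := le_max_left _ _
  have hxM : v x ≤ max 1 (v x) := le_max_right _ _
  rw [← map_pow, hc]
  refine (FinitePlace.add_le v _ _).trans (max_le ((FinitePlace.add_le v _ _).trans (max_le ?_ ?_)) ?_)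
  · rw [map_pow]
    exact pow_le_pow_left₀ (apply_nonneg v _) hxM 3
  · rw [map_mul]
    calc v (a : K) * v x ≤ 1 * max 1 (v x) :=
          mul_le_mul (fin_int v a) hxM (apply_nonneg v _) zero_le_one
      _ = max 1 (v x) ^ 1 := by ring
      _ ≤ max 1 (v x) ^ 3 := pow_le_pow_right₀ hM1 (by norm_num)
  · exact (fin_int v b).trans (one_le_pow₀ hM1)

lemma na_P (v : FinitePlace K) {a b : 𝓞 K} {x h : K}
    (hc : h ^ 2 = x ^ 3 + (a : K) * x + (b : K)) :
    NB v (max 1 (v x)) (max 1 (v x))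
      (PowerSeries.C x + PowerSeries.C (4 * h ^ 2) * PowerSeries.X) := by
  have hM1 : 1 ≤ max 1 (v x) := le_max_left _ _
  intro n
  rw [coeff_lin]
  split_ifs with h0 h1
  · subst h0
    simp
  · subst h1
    rw [map_mul, map_pow]
    have h4 : v (4 : K) ≤ 1 := by simpa using fin_nat v 4
    calc v 4 * v h ^ 2 ≤ 1 * max 1 (v x) ^ 3 :=
          mul_le_mul h4 (na_h v hc) (by positivity) zero_le_one
      _ = max 1 (v x) * max 1 (v x) ^ (2 * 1) := by ring
  · rw [map_zero]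
    positivity

lemma na_H (v : FinitePlace K) {a b : 𝓞 K} {x h : K} {E : PowerSeries K}
    (hc : h ^ 2 = x ^ 3 + (a : K) * x + (b : K))
    (hE : ∀ n, v (PowerSeries.coeff n E) ≤ (max 1 (v x)) ^ (2 * n)) :
    NB v (max 1 (v x)) (max 1 (v x) ^ 2) (PowerSeries.C h * E) := by
  have hM1 : 1 ≤ max 1 (v x) := le_max_left _ _
  have hh : v h ≤ max 1 (v x) ^ 2 := by
    have h1 := na_h v hc
    have h2 : max 1 (v x) ^ 3 ≤ (max 1 (v x) ^ 2) ^ 2 := by
      rw [← pow_mul]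
      exact pow_le_pow_right₀ hM1 (by norm_num)
    exact (sq_le_sq₀ (apply_nonneg v _) (by positivity)).1 (h1.trans h2)
  intro n
  rw [PowerSeries.coeff_C_mul, map_mul]
  exact mul_le_mul hh (hE n) (apply_nonneg v _) (by positivity)

end na

section ar

variable {K : Type} [Field K] [NumberField K]

lemma inf_add (w : InfinitePlace K) (x y : K) : w (x + y) ≤ w x + w y := by
  rw [← InfinitePlace.norm_embedding_eq w, ← InfinitePlace.norm_embedding_eq w,
    ← InfinitePlace.norm_embedding_eq w, map_add]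
  exact norm_add_le _ _

lemma inf_sum (w : InfinitePlace K) {ι : Type*} (s : Finset ι) (f : ι → K) :
    w (∑ i ∈ s, f i) ≤ ∑ i ∈ s, w (f i) := by
  classical
  induction s using Finset.induction_on with
  | empty => simp
  | insert a s ha ih =>
    rw [sum_insert ha, sum_insert ha]
    exact (inf_add w _ _).trans (by linarith)

/-- archimedean bound: weighted length -/
def AB (w : InfinitePlace K) (ρ A : ℝ) (f : PowerSeries K) : Prop :=
  ∀ N, ∑ n ∈ range N, w (PowerSeries.coeff n f) * ρ ^ n ≤ A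

lemma AB.nonneg {w : InfinitePlace K} {ρ A : ℝ} {f : PowerSeries K} (hf : AB w ρ A f) : 0 ≤ A := by
  have := hf 0
  simpa using this

lemma AB.mul {w : InfinitePlace K} {ρ A A' : ℝ} {f g : PowerSeries K} (hρ : 0 ≤ ρ)
    (hf : AB w ρ A f) (hg : AB w ρ A' g) : AB w ρ (A * A') (f * g) := by
  intro N
  have hA := hf.nonneg
  have wnn : ∀ x : K, 0 ≤ w x := fun x => apply_nonneg w x
  calc ∑ n ∈ range N, w (PowerSeries.coeff n (f * g)) * ρ ^ n ≤
      ∑ n ∈ range N, ∑ k ∈ range (n + 1), (w (PowerSeries.coeff k f) * ρ ^ k) *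
        (w (PowerSeries.coeff (n - k) g) * ρ ^ (n - k)) := by
        refine sum_le_sum fun n _ => ?_
        rw [PowerSeries.coeff_mul, Finset.Nat.sum_antidiagonal_eq_sum_range_succ
          (fun i j => PowerSeries.coeff i f * PowerSeries.coeff j g) n]
        refine (mul_le_mul_of_nonneg_right (inf_sum w _ _) (by positivity)).trans (le_of_eq ?_)
        rw [sum_mul]
        refine sum_congr rfl fun k hk => ?_
        rw [mem_range] at hk
        have e : ρ ^ n = ρ ^ k * ρ ^ (n - k) := by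
          rw [← pow_add]
          congr 1
          omega
        rw [map_mul, e]
        ring
    _ = ∑ k ∈ range N, ∑ l ∈ range (N - k), (w (PowerSeries.coeff k f) * ρ ^ k) *
        (w (PowerSeries.coeff l g) * ρ ^ l) :=
        Finset.sum_range_diag_flip N (fun k l => (w (PowerSeries.coeff k f) * ρ ^ k) *
          (w (PowerSeries.coeff l g) * ρ ^ l))
    _ ≤ ∑ k ∈ range N, (w (PowerSeries.coeff k f) * ρ ^ k) * A' := by
        refine sum_le_sum fun k _ => ?_
        rw [← mul_sum]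
        exact mul_le_mul_of_nonneg_left (hg _) (mul_nonneg (wnn _) (by positivity))
    _ = (∑ k ∈ range N, (w (PowerSeries.coeff k f) * ρ ^ k)) * A' := by rw [sum_mul]
    _ ≤ A * A' := mul_le_mul_of_nonneg_right (hf N) hg.nonneg

lemma AB.one {w : InfinitePlace K} {ρ : ℝ} : AB w ρ 1 1 := by
  intro N
  rcases N with _ | N
  · simp
  · rw [Finset.sum_range_succ']
    simp [PowerSeries.coeff_one]

lemma AB.pow {w : InfinitePlace K} {ρ A : ℝ} {f : PowerSeries K} (hρ : 0 ≤ ρ)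
    (hf : AB w ρ A f) (n : ℕ) : AB w ρ (A ^ n) (f ^ n) := by
  induction n with
  | zero =>
    rw [pow_zero, pow_zero]
    exact AB.one
  | succ n ih =>
    rw [pow_succ, pow_succ]
    exact AB.mul hρ ih hf

lemma AB.coeff {w : InfinitePlace K} {ρ A : ℝ} {f : PowerSeries K} (hρ : 0 < ρ)
    (hf : AB w ρ A f) (n : ℕ) : w (PowerSeries.coeff n f) ≤ A * (ρ⁻¹) ^ n := by
  have h1 := hf (n + 1)
  have h2 : w (PowerSeries.coeff n f) * ρ ^ n ≤
      ∑ n ∈ range (n + 1), w (PowerSeries.coeff n f) * ρ ^ n :=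
    single_le_sum (f := fun n => w (PowerSeries.coeff n f) * ρ ^ n)
      (fun i _ => mul_nonneg (apply_nonneg w _) (by positivity)) (self_mem_range_succ n)
  rw [inv_pow, ← div_eq_mul_inv, le_div_iff₀ (by positivity)]
  exact h2.trans h1

variable {a b : 𝓞 K} {A : ℝ}

lemma ar_h (w : InfinitePlace K) {x h : K} (hA : w (a : K) + w (b : K) ≤ A)
    (hc : h ^ 2 = x ^ 3 + (a : K) * x + (b : K)) :
    w h ^ 2 ≤ (1 + A) * (max 1 (w x)) ^ 3 := by
  have hM1 : 1 ≤ max 1 (w x) := le_max_left _ _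
  have hxM : w x ≤ max 1 (w x) := le_max_right _ _
  set M := max 1 (w x) with hM
  have ha : 0 ≤ w (a : K) := apply_nonneg w _
  have hb : 0 ≤ w (b : K) := apply_nonneg w _
  have hx : 0 ≤ w x := apply_nonneg w _
  rw [← map_pow, hc]
  have h1 : w (x ^ 3 + (a : K) * x + (b : K)) ≤ w x ^ 3 + w (a : K) * w x + w (b : K) := by
    have e1 := inf_add w (x ^ 3 + (a : K) * x) (b : K)
    have e2 := inf_add w (x ^ 3) ((a : K) * x)
    rw [map_pow, map_mul] at e2
    linarith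
  have h2 : w x ^ 3 ≤ M ^ 3 := pow_le_pow_left₀ hx hxM 3
  have h3 : M ≤ M ^ 3 := by
    calc M = M ^ 1 := by ring
      _ ≤ M ^ 3 := pow_le_pow_right₀ hM1 (by norm_num)
  have h4 : 1 ≤ M ^ 3 := one_le_pow₀ hM1
  have h5 : w (a : K) * w x ≤ w (a : K) * M ^ 3 := mul_le_mul_of_nonneg_left (hxM.trans h3) ha
  have h6 : w (b : K) ≤ w (b : K) * M ^ 3 := le_mul_of_one_le_right hb h4
  have h7 : (w (a : K) + w (b : K)) * M ^ 3 ≤ A * M ^ 3 :=
    mul_le_mul_of_nonneg_right hA (by positivity)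
  nlinarith

lemma ar_P (w : InfinitePlace K) {x h : K} {C₁ : ℝ} (hC₁ : 1 ≤ C₁)
    (hA : w (a : K) + w (b : K) ≤ A) (hc : h ^ 2 = x ^ 3 + (a : K) * x + (b : K)) :
    AB w ((C₁ * (max 1 (w x)) ^ 2)⁻¹) (5 * (1 + A) * max 1 (w x))
      (PowerSeries.C x + PowerSeries.C (4 * h ^ 2) * PowerSeries.X) := by
  have hM1 : 1 ≤ max 1 (w x) := le_max_left _ _
  have hxM : w x ≤ max 1 (w x) := le_max_right _ _
  have hh := ar_h w hA hc
  set M := max 1 (w x) with hM
  have hA0 : 0 ≤ A := (add_nonneg (apply_nonneg w _) (apply_nonneg w _)).trans hA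
  have hw4 : w (4 : K) = 4 := by
    have := InfinitePlace.map_natCast w 4
    rw [show ((4 : ℕ) : K) = 4 by norm_num] at this
    rw [this]
    norm_num
  set ρ := (C₁ * M ^ 2)⁻¹ with hρ
  have hρ0 : 0 ≤ ρ := by positivity
  have h4 : w (4 * h ^ 2) * ρ ≤ 4 * (1 + A) * M := by
    rw [map_mul, map_pow, hw4, hρ, ← div_eq_mul_inv, div_le_iff₀ (by positivity)]
    have h5 : M ^ 3 ≤ M * (C₁ * M ^ 2) := by
      have : M ^ 3 = M * (1 * M ^ 2) := by ring
      rw [this]
      gcongr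
    calc 4 * w h ^ 2 ≤ 4 * ((1 + A) * M ^ 3) := by linarith
      _ = 4 * (1 + A) * M ^ 3 := by ring
      _ ≤ 4 * (1 + A) * (M * (C₁ * M ^ 2)) := by
          apply mul_le_mul_of_nonneg_left h5 (by positivity)
      _ = _ := by ring
  have key : w x + w (4 * h ^ 2) * ρ ≤ 5 * (1 + A) * M := by
    have h6 : M ≤ (1 + A) * M := by nlinarith
    nlinarith
  intro N
  rcases N with _ | _ | N
  · simp
    positivity
  · have h5 : 0 ≤ w (4 * h ^ 2) * ρ := mul_nonneg (apply_nonneg w _) hρ0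
    rw [zero_add, Finset.sum_range_one, coeff_lin, if_pos rfl, pow_zero, mul_one]
    linarith
  · rw [Finset.sum_range_succ', Finset.sum_range_succ']
    have h0 : ∑ k ∈ range N, w (PowerSeries.coeff (k + 1 + 1)
        (PowerSeries.C x + PowerSeries.C (4 * h ^ 2) * PowerSeries.X)) * ρ ^ (k + 1 + 1) = 0 := by
      refine sum_eq_zero fun k _ => ?_
      rw [coeff_lin, if_neg (by omega), if_neg (by omega), map_zero, zero_mul]
    rw [h0, coeff_lin, coeff_lin, if_neg (by omega), if_pos (by omega), if_pos rfl]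
    simp only [zero_add, pow_one, pow_zero, mul_one]
    linarith

lemma ar_H (w : InfinitePlace K) {x h : K} {C₁ : ℝ} {E : PowerSeries K}
    (hA : w (a : K) + w (b : K) ≤ A) (hc : h ^ 2 = x ^ 3 + (a : K) * x + (b : K))
    (hE : ∀ N : ℕ, ∑ n ∈ range N, w (PowerSeries.coeff n E) * ((C₁ * (max 1 (w x)) ^ 2)⁻¹) ^ n ≤ 2) :
    AB w ((C₁ * (max 1 (w x)) ^ 2)⁻¹) (5 * (1 + A) * max 1 (w x) ^ 2) (PowerSeries.C h * E) := by
  have hM1 : 1 ≤ max 1 (w x) := le_max_left _ _
  have hh := ar_h w hA hc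
  set M := max 1 (w x) with hM
  have hA0 : 0 ≤ A := (add_nonneg (apply_nonneg w _) (apply_nonneg w _)).trans hA
  have hh2 : w h ≤ (1 + A) * M ^ 2 := by
    have h2 : (1 + A) * M ^ 3 ≤ ((1 + A) * M ^ 2) ^ 2 := by
      have h3 : M ^ 3 ≤ M ^ 4 := pow_le_pow_right₀ hM1 (by norm_num)
      calc (1 + A) * M ^ 3 ≤ (1 + A) * M ^ 4 := by gcongr
        _ ≤ ((1 + A) * (1 + A)) * M ^ 4 := by
            have : 1 + A ≤ (1 + A) * (1 + A) := by nlinarith
            gcongr
        _ = _ := by ring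
    exact (sq_le_sq₀ (apply_nonneg w _) (by positivity)).1 (hh.trans h2)
  intro N
  have h1 : ∀ n, w (PowerSeries.coeff n (PowerSeries.C h * E)) * ((C₁ * M ^ 2)⁻¹) ^ n =
      w h * (w (PowerSeries.coeff n E) * ((C₁ * M ^ 2)⁻¹) ^ n) := by
    intro n
    rw [PowerSeries.coeff_C_mul, map_mul]
    ring
  rw [sum_congr rfl fun n _ => h1 n, ← mul_sum]
  calc w h * ∑ n ∈ range N, w (PowerSeries.coeff n E) * ((C₁ * M ^ 2)⁻¹) ^ n ≤ w h * 2 :=
        mul_le_mul_of_nonneg_left (hE N) (apply_nonneg w _)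
    _ ≤ ((1 + A) * M ^ 2) * 2 := by linarith
    _ ≤ 5 * (1 + A) * M ^ 2 := by
        have : 0 ≤ (1 + A) * M ^ 2 := by positivity
        linarith

end ar

/-- the block inequality -/
lemma blk {M0 M1 : ℝ} (h0 : 1 ≤ M0) (h1 : 1 ≤ M1) {p0 p1 D T : ℕ} (hp0 : p0 ≤ 2 * D)
    (hp1 : p1 ≤ 2 * D) (hT : p0 + p1 + T ≤ 4 * D) :
    M0 ^ p0 * M1 ^ p1 ≤ M0 ^ (2 * D) * M1 ^ (2 * D) * (min M0 M1 ^ T)⁻¹ := by
  have hm : 1 ≤ min M0 M1 := le_min h0 h1
  rw [← div_eq_mul_inv, le_div_iff₀ (by positivity)]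
  have e0 : M0 ^ (2 * D) = M0 ^ p0 * M0 ^ (2 * D - p0) := by
    rw [← pow_add]
    congr 1
    omega
  have e1 : M1 ^ (2 * D) = M1 ^ p1 * M1 ^ (2 * D - p1) := by
    rw [← pow_add]
    congr 1
    omega
  have h2 : min M0 M1 ^ T ≤ M0 ^ (2 * D - p0) * M1 ^ (2 * D - p1) := by
    calc min M0 M1 ^ T ≤ min M0 M1 ^ ((2 * D - p0) + (2 * D - p1)) :=
          pow_le_pow_right₀ hm (by omega)
      _ = min M0 M1 ^ (2 * D - p0) * min M0 M1 ^ (2 * D - p1) := pow_add _ _ _
      _ ≤ _ := by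
          gcongr
          · exact min_le_left _ _
          · exact min_le_right _ _
  rw [e0, e1]
  calc M0 ^ p0 * M1 ^ p1 * min M0 M1 ^ T ≤
      M0 ^ p0 * M1 ^ p1 * (M0 ^ (2 * D - p0) * M1 ^ (2 * D - p1)) :=
        mul_le_mul_of_nonneg_left h2 (by positivity)
    _ = _ := by ring

lemma prod_Ix {m : ℕ} {R : Type*} [CommMonoid R] (f : Ix m → R) :
    ∏ t, f t = (∏ j, f (none, j)) * ∏ i, ∏ j, f (some i, j) := by
  rw [Fintype.prod_prod_type, Fintype.prod_option]

lemma sum_Ix {m : ℕ} {R : Type*} [AddCommMonoid R] (f : Ix m → R) :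
    ∑ t, f t = (∑ j, f (none, j)) + ∑ i, ∑ j, f (some i, j) := by
  rw [Fintype.sum_prod_type, Fintype.sum_option]

/-- product of the local bounds -/
lemma prod_bd {m : ℕ} (D T : Fin m → ℕ) (d e : ℕ) (M : Ix m → ℝ) (hM : ∀ t, 1 ≤ M t)
    (s : Ix m →₀ ℕ) (p q : Ix m → ℕ) (C₃ C₁ : ℝ) (h3 : 1 ≤ C₃) (h1 : 1 ≤ C₁) (u : Ix m → ℝ)
    (hu0 : ∀ t, 0 ≤ u t)
    (hu : ∀ t, u t ≤ (C₃ * M t) ^ p t * (C₃ * M t ^ 2) ^ q t * (C₁ * M t ^ 2) ^ s t)
    (hp0 : ∀ j, p (none, j) ≤ e + 2 * m * d) (hq0 : ∀ j, q (none, j) ≤ m)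
    (hp : ∀ i j, p (some i, j) ≤ 2 * D i) (hq : ∀ i j, q (some i, j) ≤ 1)
    (hT : ∀ i, p (some i, 0) + p (some i, 1) + T i ≤ 4 * D i) (hD : ∀ i, D i ≤ d) (he : e ≤ d)
    (hd : 1 ≤ d) :
    ∏ t, u t ≤ C₃ ^ ((12 * m + 2) * d) * C₁ ^ (∑ t, s t) * Bd D T d e M s := by
  have hM0 : ∀ t, 0 < M t := fun t => lt_of_lt_of_le one_pos (hM t)
  have e1 : ∀ t, (C₃ * M t) ^ p t * (C₃ * M t ^ 2) ^ q t * (C₁ * M t ^ 2) ^ s t =
      C₃ ^ (p t + q t) * C₁ ^ s t * (M t ^ (p t + 2 * q t) * M t ^ (2 * s t)) := by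
    intro t
    rw [mul_pow, mul_pow, mul_pow, ← pow_mul, ← pow_mul, pow_add, pow_add]
    ring
  have h4 : ∏ t, u t ≤ ∏ t, (C₃ ^ (p t + q t) * C₁ ^ s t * (M t ^ (p t + 2 * q t) * M t ^ (2 * s t))) :=
    prod_le_prod (fun t _ => hu0 t) (fun t _ => by rw [← e1]; exact hu t)
  rw [prod_mul_distrib, prod_mul_distrib, prod_mul_distrib, prod_pow_eq_pow_sum,
    prod_pow_eq_pow_sum] at h4
  -- the number of the factors
  have h5 : ∑ t, (p t + q t) ≤ (12 * m + 2) * d := by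
    rw [sum_Ix]
    have h6 : ∑ j : Fin 2, (p (none, j) + q (none, j)) ≤ ∑ _j : Fin 2, (e + 2 * m * d + m) :=
      sum_le_sum fun j _ => add_le_add (hp0 j) (hq0 j)
    have h7 : ∑ i, ∑ j, (p (some i, j) + q (some i, j)) ≤ ∑ _i : Fin m, ∑ _j : Fin 2, (2 * d + 1) :=
      sum_le_sum fun i _ => sum_le_sum fun j _ =>
        add_le_add ((hp i j).trans (by have := hD i; omega)) (hq i j)
    simp only [sum_const, card_univ, Fintype.card_fin, smul_eq_mul] at h6 h7
    have h8 : m ≤ m * d := Nat.le_mul_of_pos_right m hd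
    nlinarith
  have h6 : C₃ ^ (∑ t, (p t + q t)) ≤ C₃ ^ ((12 * m + 2) * d) := pow_le_pow_right₀ h3 h5
  have h7 : ∏ t, M t ^ (p t + 2 * q t) ≤ (∏ j : Fin 2, M (none, j) ^ (e + 2 * m * d + 2 * m)) *
      ((∏ i : Fin m, ∏ j : Fin 2, M (some i, j) ^ (2 * D i + 2)) *
        ∏ i : Fin m, (min (M (some i, 0)) (M (some i, 1)) ^ T i)⁻¹) := by
    rw [prod_Ix, ← prod_mul_distrib]
    refine mul_le_mul ?_ ?_ (prod_nonneg fun i _ => prod_nonneg fun j _ => (pow_pos (hM0 _) _).le)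
      (prod_nonneg fun j _ => (pow_pos (hM0 _) _).le)
    · refine prod_le_prod (fun j _ => (pow_pos (hM0 _) _).le) fun j _ => ?_
      refine pow_le_pow_right₀ (hM _) ?_
      have := hp0 j
      have := hq0 j
      omega
    · refine prod_le_prod (fun i _ => prod_nonneg fun j _ => (pow_pos (hM0 _) _).le) fun i _ => ?_
      rw [Fin.prod_univ_two, Fin.prod_univ_two, pow_add, pow_add, pow_add, pow_add]
      have h8 := blk (hM (some i, 0)) (hM (some i, 1)) (hp i 0) (hp i 1) (hT i)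
      have h9 : M (some i, 0) ^ (2 * q (some i, 0)) ≤ M (some i, 0) ^ 2 :=
        pow_le_pow_right₀ (hM _) (by have := hq i 0; omega)
      have h10 : M (some i, 1) ^ (2 * q (some i, 1)) ≤ M (some i, 1) ^ 2 :=
        pow_le_pow_right₀ (hM _) (by have := hq i 1; omega)
      have hp1 := pow_pos (hM0 (some i, 0)) (2 * q (some i, 0))
      have hp2 := pow_pos (hM0 (some i, 1)) (2 * q (some i, 1))
      have hmin : 0 < min (M (some i, 0)) (M (some i, 1)) := lt_min (hM0 _) (hM0 _)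
      calc M (some i, 0) ^ p (some i, 0) * M (some i, 0) ^ (2 * q (some i, 0)) *
          (M (some i, 1) ^ p (some i, 1) * M (some i, 1) ^ (2 * q (some i, 1))) =
          (M (some i, 0) ^ p (some i, 0) * M (some i, 1) ^ p (some i, 1)) *
            (M (some i, 0) ^ (2 * q (some i, 0)) * M (some i, 1) ^ (2 * q (some i, 1))) := by ring
        _ ≤ (M (some i, 0) ^ (2 * D i) * M (some i, 1) ^ (2 * D i) *
            (min (M (some i, 0)) (M (some i, 1)) ^ T i)⁻¹) *
            (M (some i, 0) ^ 2 * M (some i, 1) ^ 2) := by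
            refine mul_le_mul h8 (mul_le_mul h9 h10 hp2.le (pow_pos (hM0 _) _).le) (by positivity) ?_
            have a1 := pow_pos (hM0 (some i, 0)) (2 * D i)
            have a2 := pow_pos (hM0 (some i, 1)) (2 * D i)
            positivity
        _ = _ := by ring
  refine h4.trans ?_
  have hP1 : 0 ≤ ∏ t, M t ^ (2 * s t) := prod_nonneg fun t _ => (pow_pos (hM0 _) _).le
  have hP2 : 0 ≤ ∏ t, M t ^ (p t + 2 * q t) := prod_nonneg fun t _ => (pow_pos (hM0 _) _).le
  have hC3 : 0 < C₃ := by linarith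
  have hC1 : 0 < C₁ := by linarith
  calc C₃ ^ (∑ t, (p t + q t)) * C₁ ^ (∑ t, s t) *
      ((∏ t, M t ^ (p t + 2 * q t)) * ∏ t, M t ^ (2 * s t)) ≤
      C₃ ^ ((12 * m + 2) * d) * C₁ ^ (∑ t, s t) *
        (((∏ j : Fin 2, M (none, j) ^ (e + 2 * m * d + 2 * m)) *
        ((∏ i : Fin m, ∏ j : Fin 2, M (some i, j) ^ (2 * D i + 2)) *
        ∏ i : Fin m, (min (M (some i, 0)) (M (some i, 1)) ^ T i)⁻¹)) * ∏ t, M t ^ (2 * s t)) := by
        refine mul_le_mul (mul_le_mul_of_nonneg_right h6 (by positivity))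
          (mul_le_mul_of_nonneg_right h7 hP1) (mul_nonneg hP2 hP1) (by positivity)
    _ = _ := by
        unfold Bd
        ring

end Pool.Agent.J4H71.GC
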